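import Pool.Agent.Lib.MP_562b47_mp.SL.Tau

/-!
Shaped laws, part 4: lower bound for the variance of 1/(v+s) under the shaped law, comparison of
the square of Rt with it, the identity Im m(s) = (-Im s) E norm(1/(v+s))^2, and the law as a
probability measure dominated by multiples of Lebesgue measure.
(Uniform planar Anderson model, MP_562b47_mp.)
-/

open MeasureTheory Filter Topology Complex Set

namespace Pool.Agent.Lib.MP_562b47_mp.SL

variable {g b : ℝ}

theorem integrable_ff_mul_real {f : ℝ → ℝ} (hg : 0 < g) (hb : 0 < b) (hgb : g ≤ b)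
    (hf : Continuous f) : Integrable fun v : ℝ => ff g b v * f v := by
  have hc : Continuous fun v : ℝ => ff g b v * f v := (continuous_ff hg hb).mul hf
  refine hc.integrable_of_hasCompactSupport ?_
  refine HasCompactSupport.of_support_subset_isCompact (isCompact_Icc (a := -(5 * b)) (b := 5 * b))
    ?_
  intro v hv
  by_contra hc
  refine hv ?_
  simp only
  rw [ff_eq_zero hg hb hgb, zero_mul]
  by_contra hc'
  exact hc (abs_le.1 (not_le.1 hc').le)

theorem continuous_inv_add {s : ℂ} (hs : s.im < 0) :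
    Continuous fun v : ℝ => 1 / ((v : ℂ) + s) := by
  simp_rw [one_div]
  exact (by fun_prop : Continuous fun v : ℝ => (v : ℂ) + s).inv₀ fun v => add_ne hs v

theorem ff_lower (hg : 0 < g) (hb : 0 < b) (hgb : g ≤ b) {v : ℝ} (hv : |v| ≤ b) :
    g / (2 * Real.pi * b ^ 2) ≤ ff g b v := by
  rw [ff_eq_cd hg hb hv]
  unfold cd
  have hpi := Real.pi_pos
  rw [div_le_div_iff₀ (by positivity) (by positivity)]
  have h1 : v ^ 2 ≤ b ^ 2 := by
    rw [← sq_abs v]; exact pow_le_pow_left₀ (abs_nonneg v) hv 2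
  have h2 : g ^ 2 ≤ b ^ 2 := pow_le_pow_left₀ hg.le hgb 2
  calc g * (Real.pi * (v ^ 2 + g ^ 2)) ≤ g * (Real.pi * (b ^ 2 + b ^ 2)) := by gcongr
    _ = g * (2 * Real.pi * b ^ 2) := by ring

theorem parallelogram_le (x y c : ℂ) : ‖x - y‖ ^ 2 / 2 ≤ ‖x - c‖ ^ 2 + ‖y - c‖ ^ 2 := by
  have h1 : ‖x - y‖ ≤ ‖x - c‖ + ‖y - c‖ := by
    have : x - y = (x - c) - (y - c) := by ring
    rw [this]
    exact norm_sub_le _ _
  have h2 : ‖x - y‖ ^ 2 ≤ (‖x - c‖ + ‖y - c‖) ^ 2 := pow_le_pow_left₀ (norm_nonneg _) h1 2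
  nlinarith [sq_nonneg (‖x - c‖ - ‖y - c‖)]

/-- lower bound for the variance of 1/(v+s) under the shaped law -/
theorem var_lower (hg : 0 < g) (hb : 0 < b) (hgb : g ≤ b) {s : ℂ} (hs : s.im < 0) (c : ℂ) :
    g * b / (8 * Real.pi * (‖s‖ + b) ^ 4) ≤
      ∫ v : ℝ, ff g b v * ‖1 / ((v : ℂ) + s) - c‖ ^ 2 := by
  have hpi := Real.pi_pos
  have hn := norm_nonneg s
  have hcont : Continuous fun v : ℝ => ‖1 / ((v : ℂ) + s) - c‖ ^ 2 :=
    ((continuous_inv_add hs).sub continuous_const).norm.pow 2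
  have hcont2 : Continuous fun v : ℝ => ‖1 / (((-v : ℝ) : ℂ) + s) - c‖ ^ 2 :=
    hcont.comp continuous_neg
  have i1 := integrable_ff_mul_real hg hb hgb hcont
  have i2 := integrable_ff_mul_real hg hb hgb hcont2
  have e1 : ∫ v : ℝ, ff g b v * ‖1 / (((-v : ℝ) : ℂ) + s) - c‖ ^ 2 =
      ∫ v : ℝ, ff g b v * ‖1 / ((v : ℂ) + s) - c‖ ^ 2 := by
    rw [← integral_neg_eq_self]
    refine integral_congr_ae (ae_of_all _ fun v => ?_)
    simp [ff_neg]
  have e2 : 2 * ∫ v : ℝ, ff g b v * ‖1 / ((v : ℂ) + s) - c‖ ^ 2 =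
      ∫ v : ℝ, (ff g b v * ‖1 / ((v : ℂ) + s) - c‖ ^ 2 +
        ff g b v * ‖1 / (((-v : ℝ) : ℂ) + s) - c‖ ^ 2) := by
    rw [integral_add i1 i2, e1]
    ring
  set K : ℝ := g / (4 * Real.pi * (‖s‖ + b) ^ 4) with hK
  have hK0 : 0 ≤ K := by positivity
  have hpt : ∀ v : ℝ, (Icc (b / 2) b ∪ Icc (-b) (-(b / 2))).indicator (fun _ => K) v ≤
      ff g b v * ‖1 / ((v : ℂ) + s) - c‖ ^ 2 +
        ff g b v * ‖1 / (((-v : ℝ) : ℂ) + s) - c‖ ^ 2 := by
    intro v
    have hf0 := ff_nonneg hg hb v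
    by_cases hv : v ∈ Icc (b / 2) b ∪ Icc (-b) (-(b / 2))
    · rw [indicator_of_mem hv]
      have hv1 : |v| ≤ b := by
        rcases hv with h | h
        · rw [abs_of_nonneg (by linarith [h.1])]; exact h.2
        · rw [abs_of_nonpos (by linarith [h.2])]; linarith [h.1]
      have hv2 : b / 2 ≤ |v| := by
        rcases hv with h | h
        · rw [abs_of_nonneg (by linarith [h.1])]; exact h.1
        · rw [abs_of_nonpos (by linarith [h.2])]; linarith [h.2]
      have hfl := ff_lower hg hb hgb hv1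
      have n1 := add_ne hs v
      have n2 : (((-v : ℝ) : ℂ)) + s ≠ 0 := add_ne hs (-v)
      have d1 : 1 / ((v : ℂ) + s) - 1 / (((-v : ℝ) : ℂ) + s) =
          -(2 * v) / (((v : ℂ) + s) * (((-v : ℝ) : ℂ) + s)) := by
        have n3 : -(v : ℂ) + s ≠ 0 := by
          have := n2
          push_cast at this
          exact this
        push_cast
        field_simp
        ring
      have u1 : ‖(v : ℂ) + s‖ ≤ ‖s‖ + b := by
        refine (norm_add_le _ _).trans ?_
        rw [Complex.norm_real, Real.norm_eq_abs]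
        linarith
      have u2 : ‖((-v : ℝ) : ℂ) + s‖ ≤ ‖s‖ + b := by
        refine (norm_add_le _ _).trans ?_
        rw [Complex.norm_real, Real.norm_eq_abs, abs_neg]
        linarith
      have p1 : 0 < ‖(v : ℂ) + s‖ := norm_pos_iff.2 n1
      have p2 : 0 < ‖((-v : ℝ) : ℂ) + s‖ := norm_pos_iff.2 n2
      have d2 : b / (‖s‖ + b) ^ 2 ≤ ‖1 / ((v : ℂ) + s) - 1 / (((-v : ℝ) : ℂ) + s)‖ := by
        rw [d1, norm_div, norm_neg, norm_mul, norm_mul, Complex.norm_real, Real.norm_eq_abs,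
          Complex.norm_ofNat, sq]
        gcongr
        linarith
      have d3 : b ^ 2 / (‖s‖ + b) ^ 4 ≤ ‖1 / ((v : ℂ) + s) - 1 / (((-v : ℝ) : ℂ) + s)‖ ^ 2 := by
        have := pow_le_pow_left₀ (by positivity) d2 2
        rw [div_pow, ← pow_mul] at this
        exact this
      have d4 := parallelogram_le (1 / ((v : ℂ) + s)) (1 / (((-v : ℝ) : ℂ) + s)) c
      calc K = g / (2 * Real.pi * b ^ 2) * (b ^ 2 / (‖s‖ + b) ^ 4 / 2) := by
            rw [hK]
            field_simp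
            ring
        _ ≤ ff g b v * (‖1 / ((v : ℂ) + s) - c‖ ^ 2 + ‖1 / (((-v : ℝ) : ℂ) + s) - c‖ ^ 2) := by
            refine mul_le_mul hfl ?_ (by positivity) hf0
            linarith
        _ = _ := by ring
    · rw [indicator_of_notMem hv]
      positivity
  have hmeas : MeasurableSet (Icc (b / 2) b ∪ Icc (-b) (-(b / 2))) :=
    measurableSet_Icc.union measurableSet_Icc
  have i3 : Integrable ((Icc (b / 2) b ∪ Icc (-b) (-(b / 2))).indicator fun _ : ℝ => K) :=
    (integrable_indicator_iff hmeas).2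
      (continuous_const.integrableOn_Icc.union continuous_const.integrableOn_Icc)
  have e3 := integral_mono i3 (i1.add i2) hpt
  have e4 : ∫ v, (Icc (b / 2) b ∪ Icc (-b) (-(b / 2))).indicator (fun _ : ℝ => K) v = b * K := by
    rw [integral_indicator hmeas, setIntegral_union _ measurableSet_Icc
      continuous_const.integrableOn_Icc continuous_const.integrableOn_Icc, setIntegral_const,
      setIntegral_const, smul_eq_mul, smul_eq_mul, Real.volume_real_Icc, Real.volume_real_Icc,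
      max_eq_left (by linarith), max_eq_left (by linarith)]
    · ring
    · refine Set.disjoint_left.2 fun v h1 h2 => ?_
      linarith [h1.1, h2.2]
  rw [e4] at e3
  have e5 : b * K = 2 * (g * b / (8 * Real.pi * (‖s‖ + b) ^ 4)) := by
    rw [hK]
    field_simp
    ring
  have e6 : b * K ≤ 2 * ∫ v : ℝ, ff g b v * ‖1 / ((v : ℂ) + s) - c‖ ^ 2 := by
    rw [e2]
    exact e3
  rw [e5] at e6
  linarith

/-- the error is small against the standard deviation, for every environment -/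
theorem Rt_sq_le_var (hg : 0 < g) (hb : 0 < b) (hgb : g ≤ b) {s : ℂ} (hs : s.im < 0) (c : ℂ) :
    ‖Rt g b s‖ ^ 2 ≤ 500000000 * (g / b) *
      ∫ v : ℝ, ff g b v * ‖1 / ((v : ℂ) + s) - c‖ ^ 2 := by
  have hpi := Real.pi_pos
  have hn := norm_nonneg s
  have h1 := Rt_le hg hb hgb hs
  have h2 := var_lower hg hb hgb hs c
  have h3 : ‖Rt g b s‖ ^ 2 ≤ (4400 * g / (‖s‖ + b) ^ 2) ^ 2 := pow_le_pow_left₀ (norm_nonneg _) h1 2
  refine h3.trans ?_
  have h4 : (4400 * g / (‖s‖ + b) ^ 2) ^ 2 =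
      4400 ^ 2 * (8 * Real.pi) * (g / b) * (g * b / (8 * Real.pi * (‖s‖ + b) ^ 4)) := by
    field_simp
  rw [h4]
  have h5 : (4400 : ℝ) ^ 2 * (8 * Real.pi) ≤ 500000000 := by
    have := Real.pi_lt_d2
    linarith
  have h6 : 0 ≤ g / b := by positivity
  calc 4400 ^ 2 * (8 * Real.pi) * (g / b) * (g * b / (8 * Real.pi * (‖s‖ + b) ^ 4))
      ≤ 500000000 * (g / b) * (g * b / (8 * Real.pi * (‖s‖ + b) ^ 4)) := by gcongr
    _ ≤ _ := by gcongr

/-- E norm(1/(v+s))^2 = Im m(s) / (-Im s) -/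
theorem integral_ff_normSq (hg : 0 < g) (hb : 0 < b) (hgb : g ≤ b) {s : ℂ} (hs : s.im < 0) :
    (-s.im) * ∫ v : ℝ, ff g b v * ‖1 / ((v : ℂ) + s)‖ ^ 2 =
      (∫ v : ℝ, (ff g b v : ℂ) / ((v : ℂ) + s)).im := by
  have i1 : Integrable fun v : ℝ => (ff g b v : ℂ) / ((v : ℂ) + s) :=
    integrable_div (integrable_ff hg hb hgb) hs
  have h1 : (∫ v : ℝ, (ff g b v : ℂ) / ((v : ℂ) + s)).im =
      ∫ v : ℝ, ((ff g b v : ℂ) / ((v : ℂ) + s)).im := by
    exact (integral_im i1).symm
  rw [h1, ← integral_const_mul]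
  refine integral_congr_ae (ae_of_all _ fun v => ?_)
  simp only
  have n1 := add_ne hs v
  have e1 : ((ff g b v : ℂ) / ((v : ℂ) + s)).im = ff g b v * (((v : ℂ) + s)⁻¹).im := by
    rw [div_eq_mul_inv, Complex.im_ofReal_mul]
  rw [e1, Complex.inv_im, norm_div, norm_one, div_pow, one_pow, ← Complex.normSq_eq_norm_sq]
  simp
  ring

/-- the shaped law as a measure -/
noncomputable def nuM (g b : ℝ) : Measure ℝ :=
  volume.withDensity fun v => ENNReal.ofReal (ff g b v)

theorem isProbabilityMeasure_nuM (hg : 0 < g) (hb : 0 < b) (hgb : g ≤ b) :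
    IsProbabilityMeasure (nuM g b) := by
  constructor
  unfold nuM
  rw [withDensity_apply _ MeasurableSet.univ, setLIntegral_univ,
    ← ofReal_integral_eq_lintegral_ofReal (integrable_ff hg hb hgb)
      (ae_of_all _ (ff_nonneg hg hb)), integral_ff hg hb hgb, ENNReal.ofReal_one]

theorem integral_nuM {E : Type*} [NormedAddCommGroup E] [NormedSpace ℝ E] (hg : 0 < g)
    (hb : 0 < b) (f : ℝ → E) : ∫ v, f v ∂(nuM g b) = ∫ v, ff g b v • f v := by
  unfold nuM
  rw [integral_withDensity_eq_integral_toReal_smul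
    ((continuous_ff hg hb).measurable.ennreal_ofReal) (ae_of_all _ fun v => ENNReal.ofReal_lt_top)]
  refine integral_congr_ae (ae_of_all _ fun v => ?_)
  simp only
  rw [ENNReal.toReal_ofReal (ff_nonneg hg hb v)]

theorem nuM_compl (hg : 0 < g) (hb : 0 < b) (hgb : g ≤ b) :
    nuM g b (Icc (-(5 * b)) (5 * b))ᶜ = 0 := by
  unfold nuM
  rw [withDensity_apply _ measurableSet_Icc.compl, setLIntegral_congr_fun
    measurableSet_Icc.compl (g := fun _ => 0)]
  · simp
  · intro v hv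
    simp only
    rw [ff_eq_zero hg hb hgb, ENNReal.ofReal_zero]
    by_contra hc
    exact hv (abs_le.1 (not_le.1 hc).le)

/-- the shaped law is dominated by 1/(pi g) times Lebesgue measure -/
theorem nuM_le (hg : 0 < g) (hb : 0 < b) :
    nuM g b ≤ ENNReal.ofReal (1 / (Real.pi * g)) • (volume : Measure ℝ) := by
  unfold nuM
  rw [← withDensity_const]
  exact withDensity_mono (ae_of_all _ fun v => ENNReal.ofReal_le_ofReal (ff_le_max hg hb v))

end Pool.Agent.Lib.MP_562b47_mp.SL
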