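import Pool.Agent.Lib.MP_562b47_mp.SL.Cauchy

/-!
Shaped laws, part 2: the shaped density ff g b: equal to the Cauchy density of scale g on |v| ≤ b,
supported in |v| ≤ 5 b, Lipschitz at scale b. Basic properties.
(Uniform planar Anderson model, MP_562b47_mp.)
-/

open MeasureTheory Filter Topology Complex Set

namespace Pool.Agent.Lib.MP_562b47_mp.SL

/-- width of the linear part -/
noncomputable def cw (g b : ℝ) : ℝ := 2 * Real.arctan (g / b) * (b ^ 2 + g ^ 2) / g

/-- the correction as a function of |v| -/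
noncomputable def R0 (g b w : ℝ) : ℝ :=
  cd g b * max 0 (1 - (max w b - b) / cw g b) - cd g (max w b)

/-- the correction: shaped density minus Cauchy density -/
noncomputable def rr (g b v : ℝ) : ℝ := R0 g b |v|

/-- the shaped density -/
noncomputable def ff (g b v : ℝ) : ℝ := cd g v + rr g b v

variable {g b : ℝ}

theorem arctan_lower {x : ℝ} (hx : 0 ≤ x) : x / (1 + x ^ 2) ≤ Real.arctan x := by
  have h0 : 0 ≤ Real.arctan x := Real.arctan_nonneg.2 hx
  have h1 : Real.sin (2 * Real.arctan x) ≤ 2 * Real.arctan x := Real.sin_le (by linarith)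
  rw [Real.sin_two_mul, Real.sin_arctan, Real.cos_arctan] at h1
  have h2 : x / √(1 + x ^ 2) * (1 / √(1 + x ^ 2)) = x / (1 + x ^ 2) := by
    rw [div_mul_div_comm, mul_one, Real.mul_self_sqrt (by positivity)]
  have h3 : 2 * (x / √(1 + x ^ 2)) * (1 / √(1 + x ^ 2)) = 2 * (x / (1 + x ^ 2)) := by
    rw [← h2]; ring
  rw [h3] at h1
  linarith

theorem arctan_upper {x : ℝ} (hx : 0 ≤ x) : Real.arctan x ≤ x := by
  have h0 : 0 ≤ Real.arctan x := Real.arctan_nonneg.2 hx
  have h1 := Real.le_tan h0 (Real.arctan_lt_pi_div_two x)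
  rwa [Real.tan_arctan] at h1

theorem cw_lower (hg : 0 < g) (hb : 0 < b) : 2 * b ≤ cw g b := by
  have h1 := arctan_lower (x := g / b) (by positivity)
  have h2 : g / b / (1 + (g / b) ^ 2) = g * b / (b ^ 2 + g ^ 2) := by
    field_simp
  rw [h2, div_le_iff₀ (by positivity)] at h1
  unfold cw
  rw [le_div_iff₀ hg]
  nlinarith

theorem cw_upper (hg : 0 < g) (hb : 0 < b) (hgb : g ≤ b) : cw g b ≤ 4 * b := by
  have h1 := arctan_upper (x := g / b) (by positivity)
  rw [le_div_iff₀ hb] at h1
  unfold cw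
  rw [div_le_iff₀ hg]
  have h2 : b ^ 2 + g ^ 2 ≤ 2 * b ^ 2 := by nlinarith
  have h3 : 0 ≤ Real.arctan (g / b) := Real.arctan_nonneg.2 (by positivity)
  calc 2 * Real.arctan (g / b) * (b ^ 2 + g ^ 2) ≤ 2 * Real.arctan (g / b) * (2 * b ^ 2) := by
        gcongr
    _ = 4 * b * (Real.arctan (g / b) * b) := by ring
    _ ≤ 4 * b * g := by gcongr

theorem cw_pos (hg : 0 < g) (hb : 0 < b) : 0 < cw g b := by
  have := cw_lower hg hb
  linarith

theorem rr_eq_zero (hg : 0 < g) (hb : 0 < b) {v : ℝ} (hv : |v| ≤ b) : rr g b v = 0 := by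
  unfold rr R0
  rw [max_eq_right hv, sub_self, zero_div, sub_zero, max_eq_right zero_le_one, mul_one, sub_self]

theorem rr_eq {v : ℝ} (hv : b ≤ |v|) :
    rr g b v = cd g b * max 0 (1 - (|v| - b) / cw g b) - cd g v := by
  unfold rr R0
  rw [max_eq_left hv]
  congr 1
  unfold cd
  rw [sq_abs]

theorem ff_eq_cd (hg : 0 < g) (hb : 0 < b) {v : ℝ} (hv : |v| ≤ b) : ff g b v = cd g v := by
  unfold ff
  rw [rr_eq_zero hg hb hv, add_zero]

theorem ff_eq {v : ℝ} (hv : b ≤ |v|) :
    ff g b v = cd g b * max 0 (1 - (|v| - b) / cw g b) := by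
  unfold ff
  rw [rr_eq hv]
  ring

theorem ff_nonneg (hg : 0 < g) (hb : 0 < b) (v : ℝ) : 0 ≤ ff g b v := by
  rcases le_total |v| b with h | h
  · rw [ff_eq_cd hg hb h]; exact cd_nonneg hg v
  · rw [ff_eq h]
    exact mul_nonneg (cd_nonneg hg b) (le_max_left _ _)

theorem ff_neg (v : ℝ) : ff g b (-v) = ff g b v := by
  unfold ff rr cd
  rw [abs_neg, neg_sq]

theorem rr_neg (v : ℝ) : rr g b (-v) = rr g b v := by
  unfold rr
  rw [abs_neg]

theorem tent_le_one (hg : 0 < g) (hb : 0 < b) {w : ℝ} (hw : b ≤ w) :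
    max 0 (1 - (w - b) / cw g b) ≤ 1 := by
  have h1 := cw_pos hg hb
  refine max_le zero_le_one ?_
  have : 0 ≤ (w - b) / cw g b := div_nonneg (by linarith) h1.le
  linarith

/-- support -/
theorem ff_eq_zero (hg : 0 < g) (hb : 0 < b) (hgb : g ≤ b) {v : ℝ} (hv : 5 * b ≤ |v|) :
    ff g b v = 0 := by
  rw [ff_eq (by linarith)]
  have h1 := cw_pos hg hb
  have h2 := cw_upper hg hb hgb
  rw [max_eq_left, mul_zero]
  have : 1 ≤ (|v| - b) / cw g b := by
    rw [le_div_iff₀ h1]; linarith
  linarith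

theorem cd_anti (hg : 0 < g) {v w : ℝ} (h : |v| ≤ |w|) : cd g w ≤ cd g v := by
  unfold cd
  have h1 : v ^ 2 ≤ w ^ 2 := sq_le_sq.2 h
  have := Real.pi_pos
  gcongr

theorem cd_le (hg : 0 < g) (hb : 0 < b) : cd g b ≤ g / (Real.pi * b ^ 2) := by
  unfold cd
  have := Real.pi_pos
  gcongr
  nlinarith [sq_nonneg g]

theorem ff_le (hg : 0 < g) (hb : 0 < b) (hgb : g ≤ b) (v : ℝ) : ff g b v ≤ 25 * cd g v := by
  rcases le_total |v| b with h | h
  · rw [ff_eq_cd hg hb h]
    have := cd_nonneg hg v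
    linarith
  rcases le_total (5 * b) |v| with h5 | h5
  · rw [ff_eq_zero hg hb hgb h5]
    have := cd_nonneg hg v
    linarith
  · rw [ff_eq h]
    have h1 := tent_le_one hg hb h
    have h2 : cd g b ≤ 25 * cd g v := by
      unfold cd
      have := Real.pi_pos
      have h3 : v ^ 2 ≤ 25 * b ^ 2 := by
        rw [← sq_abs v]; nlinarith [abs_nonneg v]
      rw [← mul_div_assoc, div_le_div_iff₀ (by positivity) (by positivity)]
      have h4 : v ^ 2 + g ^ 2 ≤ 25 * (b ^ 2 + g ^ 2) := by nlinarith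
      calc g * (Real.pi * (v ^ 2 + g ^ 2)) ≤ g * (Real.pi * (25 * (b ^ 2 + g ^ 2))) := by gcongr
        _ = 25 * g * (Real.pi * (b ^ 2 + g ^ 2)) := by ring
    calc cd g b * max 0 (1 - (|v| - b) / cw g b) ≤ cd g b * 1 := by
          gcongr; exact cd_nonneg hg b
      _ ≤ 25 * cd g v := by rw [mul_one]; exact h2

theorem ff_le_max (hg : 0 < g) (hb : 0 < b) (v : ℝ) : ff g b v ≤ 1 / (Real.pi * g) := by
  have h0 : cd g 0 = 1 / (Real.pi * g) := by
    unfold cd
    have := Real.pi_pos.ne'
    field_simp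
    ring
  rw [← h0]
  rcases le_total |v| b with h | h
  · rw [ff_eq_cd hg hb h]
    exact cd_anti hg (by simp)
  · rw [ff_eq h]
    calc cd g b * max 0 (1 - (|v| - b) / cw g b) ≤ cd g b * 1 := by
          gcongr
          · exact cd_nonneg hg b
          · exact tent_le_one hg hb h
      _ ≤ cd g 0 := by rw [mul_one]; exact cd_anti hg (by simp)

theorem abs_rr_le (hg : 0 < g) (hb : 0 < b) (hgb : g ≤ b) (v : ℝ) :
    |rr g b v| ≤ 26 * (g / b) * cd b v := by
  have hpi := Real.pi_pos
  have hk : 26 * (g / b) * cd b v = 26 * g / (Real.pi * (v ^ 2 + b ^ 2)) := by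
    unfold cd
    field_simp
  rw [hk]
  rcases le_total |v| b with h | h
  · rw [rr_eq_zero hg hb h, abs_zero]; positivity
  have hc1 : cd g v ≤ 26 * g / (Real.pi * (v ^ 2 + b ^ 2)) := by
    unfold cd
    rw [div_le_div_iff₀ (by positivity) (by positivity)]
    have h3 : b ^ 2 ≤ v ^ 2 := by
      rw [← sq_abs v]; exact pow_le_pow_left₀ hb.le h 2
    have h4 : v ^ 2 + b ^ 2 ≤ 26 * (v ^ 2 + g ^ 2) := by nlinarith [sq_nonneg g, sq_nonneg v]
    calc g * (Real.pi * (v ^ 2 + b ^ 2)) ≤ g * (Real.pi * (26 * (v ^ 2 + g ^ 2))) := by gcongr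
      _ = 26 * g * (Real.pi * (v ^ 2 + g ^ 2)) := by ring
  have hf := ff_nonneg hg hb v
  have hc0 := cd_nonneg hg v
  rcases le_total (5 * b) |v| with h5 | h5
  · have h1 : rr g b v = - cd g v := by
      have := ff_eq_zero hg hb hgb h5
      unfold ff at this
      linarith
    rw [h1, abs_neg, abs_of_nonneg hc0]
    exact hc1
  · have h1 : rr g b v = ff g b v - cd g v := by unfold ff; ring
    have h2 : ff g b v ≤ 26 * g / (Real.pi * (v ^ 2 + b ^ 2)) := by
      rw [ff_eq h]
      calc cd g b * max 0 (1 - (|v| - b) / cw g b) ≤ cd g b * 1 := by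
            gcongr
            · exact cd_nonneg hg b
            · exact tent_le_one hg hb h
        _ ≤ g / (Real.pi * b ^ 2) := by rw [mul_one]; exact cd_le hg hb
        _ ≤ 26 * g / (Real.pi * (v ^ 2 + b ^ 2)) := by
            rw [div_le_div_iff₀ (by positivity) (by positivity)]
            have h3 : v ^ 2 ≤ 25 * b ^ 2 := by
              rw [← sq_abs v]; nlinarith [abs_nonneg v]
            calc g * (Real.pi * (v ^ 2 + b ^ 2)) ≤ g * (Real.pi * (25 * b ^ 2 + b ^ 2)) := by
                  gcongr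
              _ = 26 * g * (Real.pi * b ^ 2) := by ring
    rw [h1, abs_le]
    constructor <;> linarith

theorem abs_rr_le' (hg : 0 < g) (hb : 0 < b) (v : ℝ) : |rr g b v| ≤ cd g b := by
  rcases le_total |v| b with h | h
  · rw [rr_eq_zero hg hb h, abs_zero]; exact cd_nonneg hg b
  · have h1 := rr_eq (g := g) h
    have h2 := tent_le_one hg hb h
    have h3 : cd g v ≤ cd g b := cd_anti hg (by rwa [abs_of_pos hb])
    have h4 := cd_nonneg hg v
    have h5 := cd_nonneg hg b
    have h6 : 0 ≤ max 0 (1 - (|v| - b) / cw g b) := le_max_left _ _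
    rw [h1, abs_le]
    constructor <;> nlinarith

theorem continuous_rr (hg : 0 < g) (hb : 0 < b) : Continuous (rr g b) := by
  unfold rr R0
  have h := continuous_cd hg
  have h1 : Continuous fun v : ℝ => max |v| b := by fun_prop
  refine Continuous.sub ?_ (h.comp h1)
  refine continuous_const.mul (continuous_const.max ?_)
  exact continuous_const.sub ((h1.sub continuous_const).div_const _)

theorem continuous_ff (hg : 0 < g) (hb : 0 < b) : Continuous (ff g b) :=
  (continuous_cd hg).add (continuous_rr hg hb)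

theorem integrable_rr (hg : 0 < g) (hb : 0 < b) (hgb : g ≤ b) : Integrable (rr g b) := by
  refine ((integrable_cd hb).const_mul (26 * (g / b))).mono'
    (continuous_rr hg hb).aestronglyMeasurable (ae_of_all _ fun v => ?_)
  rw [Real.norm_eq_abs]
  exact abs_rr_le hg hb hgb v

theorem integral_abs_rr (hg : 0 < g) (hb : 0 < b) (hgb : g ≤ b) :
    ∫ v, |rr g b v| ≤ 26 * g / b := by
  have h := integral_mono (integrable_rr hg hb hgb).abs
    ((integrable_cd hb).const_mul (26 * (g / b))) (abs_rr_le hg hb hgb)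
  rw [integral_const_mul, integral_cd hb, mul_one] at h
  rw [mul_div_assoc]
  exact h

theorem integrable_ff (hg : 0 < g) (hb : 0 < b) (hgb : g ≤ b) : Integrable (ff g b) :=
  (integrable_cd hg).add (integrable_rr hg hb hgb)

theorem integral_tent (hg : 0 < g) (hb : 0 < b) :
    ∫ w in Ioi b, max 0 (1 - (w - b) / cw g b) = cw g b / 2 := by
  have hw := cw_pos hg hb
  have h1 : Ioi b = Ioc b (b + cw g b) ∪ Ioi (b + cw g b) :=
    (Ioc_union_Ioi_eq_Ioi (by linarith)).symm
  have e1 : EqOn (fun w => max 0 (1 - (w - b) / cw g b)) (fun w => 1 - (w - b) / cw g b)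
      (Ioc b (b + cw g b)) := by
    intro w hw'
    refine max_eq_right ?_
    have : (w - b) / cw g b ≤ 1 := by
      rw [div_le_one hw]; linarith [hw'.2]
    linarith
  have e2 : EqOn (fun w => max 0 (1 - (w - b) / cw g b)) (fun _ => (0:ℝ))
      (Ioi (b + cw g b)) := by
    intro w hw'
    refine max_eq_left ?_
    have : 1 ≤ (w - b) / cw g b := by
      rw [le_div_iff₀ hw]; linarith [mem_Ioi.1 hw']
    linarith
  have i1 : IntegrableOn (fun w => max 0 (1 - (w - b) / cw g b)) (Ioc b (b + cw g b)) := by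
    refine (Continuous.integrableOn_Icc ?_).mono_set Ioc_subset_Icc_self
    fun_prop
  have i2 : IntegrableOn (fun w => max 0 (1 - (w - b) / cw g b)) (Ioi (b + cw g b)) :=
    (integrableOn_zero).congr_fun (fun w hw' => (e2 hw').symm) measurableSet_Ioi
  rw [h1, setIntegral_union (Set.Ioc_disjoint_Ioi le_rfl) measurableSet_Ioi i1 i2,
    setIntegral_congr_fun measurableSet_Ioc e1, setIntegral_congr_fun measurableSet_Ioi e2,
    ← intervalIntegral.integral_of_le (by linarith)]
  simp only [integral_zero, add_zero]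
  have h2 : ∀ w : ℝ, 1 - (w - b) / cw g b = (1 + b / cw g b) - (cw g b)⁻¹ * w := by
    intro w; field_simp; ring
  simp_rw [h2]
  rw [intervalIntegral.integral_sub (by simp) (by
    exact (continuous_const.mul continuous_id).intervalIntegrable _ _),
    intervalIntegral.integral_const, intervalIntegral.integral_const_mul, integral_id,
    smul_eq_mul]
  field_simp
  ring

theorem integral_rr (hg : 0 < g) (hb : 0 < b) (hgb : g ≤ b) : ∫ v, rr g b v = 0 := by
  have h0 : ∫ v, rr g b v = 2 * ∫ w in Ioi (0:ℝ), R0 g b w := by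
    unfold rr
    exact integral_comp_abs (f := R0 g b)
  have hRi : IntegrableOn (R0 g b) (Ioi 0) := by
    refine ((integrable_rr hg hb hgb).integrableOn (s := Ioi 0)).congr_fun ?_ measurableSet_Ioi
    intro w hw
    unfold rr
    rw [abs_of_pos (mem_Ioi.1 hw)]
  have h1 : Ioi (0:ℝ) = Ioc 0 b ∪ Ioi b := (Ioc_union_Ioi_eq_Ioi hb.le).symm
  rw [h0, h1, setIntegral_union (Set.Ioc_disjoint_Ioi le_rfl) measurableSet_Ioi
    (hRi.mono_set (by rw [h1]; exact subset_union_left))
    (hRi.mono_set (by rw [h1]; exact subset_union_right))]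
  have e1 : EqOn (R0 g b) (fun _ => (0:ℝ)) (Ioc 0 b) := by
    intro w hw
    have := rr_eq_zero hg hb (v := w) (by rw [abs_of_pos hw.1]; exact hw.2)
    unfold rr at this
    rwa [abs_of_pos hw.1] at this
  have e2 : EqOn (R0 g b) (fun w => cd g b * max 0 (1 - (w - b) / cw g b) - cd g w) (Ioi b) := by
    intro w hw
    unfold R0
    simp only
    rw [max_eq_left (mem_Ioi.1 hw).le]
  have i1 : IntegrableOn (fun w => cd g b * max 0 (1 - (w - b) / cw g b)) (Ioi b) := by
    have h2 : IntegrableOn (fun w => R0 g b w + cd g w) (Ioi b) :=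
      (hRi.mono_set (by rw [h1]; exact subset_union_right)).add (integrable_cd hg).integrableOn
    refine h2.congr_fun ?_ measurableSet_Ioi
    intro w hw
    simp only
    rw [e2 hw]
    ring
  rw [setIntegral_congr_fun measurableSet_Ioc e1, setIntegral_congr_fun measurableSet_Ioi e2,
    integral_sub i1 (integrable_cd hg).integrableOn, integral_const_mul, integral_tent hg hb,
    integral_Ioi_cd hg]
  simp only [integral_zero, zero_add]
  have h3 : Real.arctan (b / g) = Real.pi / 2 - Real.arctan (g / b) := by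
    rw [← inv_div g b]
    exact Real.arctan_inv_of_pos (by positivity)
  rw [h3]
  unfold cw cd
  have := Real.pi_pos.ne'
  have h4 : b ^ 2 + g ^ 2 ≠ 0 := by positivity
  field_simp
  ring

theorem integral_ff (hg : 0 < g) (hb : 0 < b) (hgb : g ≤ b) : ∫ v, ff g b v = 1 := by
  unfold ff
  rw [integral_add (integrable_cd hg) (integrable_rr hg hb hgb), integral_cd hg,
    integral_rr hg hb hgb, add_zero]

/-- Lipschitz bound -/
theorem lip_rr (hg : 0 < g) (hb : 0 < b) (v w : ℝ) :
    |rr g b v - rr g b w| ≤ g / b ^ 3 * |v - w| := by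
  have hpi := Real.pi_pos
  have hw := cw_lower hg hb
  have hwp := cw_pos hg hb
  set x := max |v| b with hx
  set y := max |w| b with hy
  have hxb : b ≤ x := le_max_right _ _
  have hyb : b ≤ y := le_max_right _ _
  have hxy : |x - y| ≤ |v - w| := by
    refine (abs_max_sub_max_le_abs |v| |w| b).trans ?_
    exact abs_abs_sub_abs_le v w
  have h1 : |max 0 (1 - (x - b) / cw g b) - max 0 (1 - (y - b) / cw g b)| ≤
      |x - y| / cw g b := by
    have := abs_max_sub_max_le_abs (1 - (x - b) / cw g b) (1 - (y - b) / cw g b) 0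
    rw [max_comm (1 - (x - b) / cw g b) 0, max_comm (1 - (y - b) / cw g b) 0] at this
    refine this.trans (le_of_eq ?_)
    have h2 : 1 - (x - b) / cw g b - (1 - (y - b) / cw g b) = (y - x) / cw g b := by
      field_simp; ring
    rw [h2, abs_div, abs_of_pos hwp, abs_sub_comm]
  have h2 : |cd g x - cd g y| ≤ 2 * g / (Real.pi * b ^ 3) * |x - y| := by
    have hx0 : 0 < x := by linarith
    have hy0 : 0 < y := by linarith
    have e1 : cd g x - cd g y = g / Real.pi * ((x + y) / ((x ^ 2 + g ^ 2) * (y ^ 2 + g ^ 2))) *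
        (y - x) := by
      unfold cd
      field_simp
      ring
    rw [e1, abs_mul, abs_of_nonneg (by positivity), abs_sub_comm y x]
    refine mul_le_mul_of_nonneg_right ?_ (abs_nonneg _)
    have e2 : (x + y) / ((x ^ 2 + g ^ 2) * (y ^ 2 + g ^ 2)) ≤ 2 / b ^ 3 := by
      rw [div_le_div_iff₀ (by positivity) (by positivity)]
      have k1 : x * b ^ 3 ≤ x ^ 2 * y ^ 2 := by
        have : b ^ 3 ≤ x * y ^ 2 := by
          calc b ^ 3 = b * b ^ 2 := by ring
            _ ≤ x * y ^ 2 := by gcongr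
        nlinarith
      have k2 : y * b ^ 3 ≤ x ^ 2 * y ^ 2 := by
        have : b ^ 3 ≤ x ^ 2 * y := by
          calc b ^ 3 = b ^ 2 * b := by ring
            _ ≤ x ^ 2 * y := by gcongr
        nlinarith
      have k3 : x ^ 2 * y ^ 2 ≤ (x ^ 2 + g ^ 2) * (y ^ 2 + g ^ 2) := by
        gcongr <;> nlinarith [sq_nonneg g]
      nlinarith
    calc g / Real.pi * ((x + y) / ((x ^ 2 + g ^ 2) * (y ^ 2 + g ^ 2)))
        ≤ g / Real.pi * (2 / b ^ 3) := by gcongr
      _ = 2 * g / (Real.pi * b ^ 3) := by field_simp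
  have h3 : |rr g b v - rr g b w| ≤ cd g b * (|x - y| / cw g b) +
      2 * g / (Real.pi * b ^ 3) * |x - y| := by
    have e : rr g b v - rr g b w = cd g b * (max 0 (1 - (x - b) / cw g b) -
        max 0 (1 - (y - b) / cw g b)) - (cd g x - cd g y) := by
      unfold rr R0
      ring
    rw [e]
    refine (abs_sub _ _).trans (add_le_add ?_ h2)
    rw [abs_mul, abs_of_nonneg (cd_nonneg hg b)]
    exact mul_le_mul_of_nonneg_left h1 (cd_nonneg hg b)
  have h4 : cd g b * (|x - y| / cw g b) ≤ g / (Real.pi * b ^ 2) * (|x - y| / (2 * b)) := by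
    have := cd_le hg hb
    have := cd_nonneg hg b
    gcongr
  have h5 : g / (Real.pi * b ^ 2) * (|x - y| / (2 * b)) + 2 * g / (Real.pi * b ^ 3) * |x - y| =
      (5 / (2 * Real.pi)) * (g / b ^ 3 * |x - y|) := by
    field_simp
    ring
  have h6 : 5 / (2 * Real.pi) ≤ 1 := by
    rw [div_le_one (by positivity)]
    linarith [Real.pi_gt_three]
  have h7 : 0 ≤ g / b ^ 3 * |x - y| := by positivity
  calc |rr g b v - rr g b w| ≤ (5 / (2 * Real.pi)) * (g / b ^ 3 * |x - y|) := by
        rw [← h5]; linarith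
    _ ≤ 1 * (g / b ^ 3 * |x - y|) := by gcongr
    _ ≤ g / b ^ 3 * |v - w| := by rw [one_mul]; gcongr

end Pool.Agent.Lib.MP_562b47_mp.SL
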