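import Pool.Agent.Lib.MP_562b47_mp.SL.Shape

/-!
Shaped laws, part 3: the resolvent transform of the shaped density ff g b differs from the one of
the Cauchy law by Rt g b s, with
 norm Rt ≤ 35 g |s| / b ^ 3 for |s| ≤ b / 2, norm Rt ≤ 36 g / b ^ 2 always,
 norm Rt ≤ 17 g / |s| ^ 2 for |s| ≥ 10 b.
(Uniform planar Anderson model, MP_562b47_mp.)
-/

open MeasureTheory Filter Topology Complex Set

namespace Pool.Agent.Lib.MP_562b47_mp.SL

variable {g b : ℝ}

/-- difference of the resolvent transforms: shaped law minus Cauchy law -/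
noncomputable def Rt (g b : ℝ) (s : ℂ) : ℂ := ∫ v : ℝ, (rr g b v : ℂ) / ((v : ℂ) + s)

theorem im_le_norm_add (s : ℂ) (v : ℝ) : -s.im ≤ ‖(v : ℂ) + s‖ := by
  have := Complex.abs_im_le_norm ((v : ℂ) + s)
  simp at this
  linarith [neg_le_abs s.im]

theorem integrable_div {f : ℝ → ℝ} (hf : Integrable f) {s : ℂ} (hs : s.im < 0) :
    Integrable fun v : ℝ => (f v : ℂ) / ((v : ℂ) + s) := by
  have h1 : Integrable fun v : ℝ => (f v : ℂ) := hf.ofReal
  have h2 := h1.bdd_mul (c := (-s.im)⁻¹) (f := fun v : ℝ => ((v : ℂ) + s)⁻¹) ?_ ?_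
  · refine h2.congr (ae_of_all _ fun v => ?_)
    simp only
    rw [div_eq_mul_inv, mul_comm]
  · refine Continuous.aestronglyMeasurable ?_
    exact (by fun_prop : Continuous fun v : ℝ => (v : ℂ) + s).inv₀ fun v => add_ne hs v
  · refine ae_of_all _ fun v => ?_
    rw [norm_inv]
    have h3 := im_le_norm_add s v
    have h4 : 0 < -s.im := by linarith
    gcongr

/-- the resolvent transform of the shaped law -/
theorem integral_ff_div (hg : 0 < g) (hb : 0 < b) (hgb : g ≤ b) {s : ℂ} (hs : s.im < 0) :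
    ∫ v : ℝ, (ff g b v : ℂ) / ((v : ℂ) + s) = 1 / (s - g * I) + Rt g b s := by
  unfold Rt
  rw [← integral_cd_div hg hs, ← integral_add (integrable_cd_div hg hs)
    (integrable_div (integrable_rr hg hb hgb) hs)]
  refine integral_congr_ae (ae_of_all _ fun v => ?_)
  simp only
  unfold ff
  push_cast
  rw [add_div]

theorem neg_add_ne {s : ℂ} (hs : s.im < 0) (v : ℝ) : -(v : ℂ) + s ≠ 0 := by
  have := add_ne hs (-v)
  simpa using this

theorem Rt_small (hg : 0 < g) (hb : 0 < b) (hgb : g ≤ b) {s : ℂ} (hs : s.im < 0)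
    (h : ‖s‖ ≤ b / 2) : ‖Rt g b s‖ ≤ 35 * g * ‖s‖ / b ^ 3 := by
  have hi1 := integrable_div (integrable_rr hg hb hgb) hs
  have hi2 : Integrable fun v : ℝ => (rr g b v : ℂ) / (-(v : ℂ) + s) := by
    refine hi1.comp_neg.congr (ae_of_all _ fun v => ?_)
    simp [rr_neg]
  have e1 : ∫ v : ℝ, (rr g b v : ℂ) / (-(v : ℂ) + s) = Rt g b s := by
    unfold Rt
    rw [← integral_neg_eq_self]
    refine integral_congr_ae (ae_of_all _ fun v => ?_)
    simp [rr_neg]
  have e2 : 2 * Rt g b s = ∫ v : ℝ, ((rr g b v : ℂ) / ((v : ℂ) + s) +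
      (rr g b v : ℂ) / (-(v : ℂ) + s)) := by
    rw [integral_add hi1 hi2, e1]
    unfold Rt
    ring
  have e3 : ‖2 * Rt g b s‖ ≤ ∫ v : ℝ, (8 * ‖s‖ / (3 * b ^ 2)) * |rr g b v| := by
    rw [e2]
    refine norm_integral_le_of_norm_le ((integrable_rr hg hb hgb).abs.const_mul _)
      (ae_of_all _ fun v => ?_)
    rcases le_total |v| b with hv | hv
    · simp [rr_eq_zero hg hb hv]
    · have n1 := add_ne hs v
      have n2 := neg_add_ne hs v
      have e : (rr g b v : ℂ) / ((v : ℂ) + s) + (rr g b v : ℂ) / (-(v : ℂ) + s) =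
          (rr g b v : ℂ) * (2 * s) / (s ^ 2 - (v : ℂ) ^ 2) := by
        have n3 : s ^ 2 - (v : ℂ) ^ 2 = ((v : ℂ) + s) * (-(v : ℂ) + s) := by ring
        rw [n3]
        field_simp
        ring
      have lo : 3 / 4 * b ^ 2 ≤ ‖s ^ 2 - (v : ℂ) ^ 2‖ := by
        have h1 : ‖(v : ℂ) ^ 2‖ - ‖s ^ 2‖ ≤ ‖s ^ 2 - (v : ℂ) ^ 2‖ := by
          rw [norm_sub_rev]
          exact norm_sub_norm_le _ _
        rw [norm_pow, norm_pow, Complex.norm_real, Real.norm_eq_abs] at h1
        have h2 : b ^ 2 ≤ |v| ^ 2 := pow_le_pow_left₀ hb.le hv 2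
        have h3 : ‖s‖ ^ 2 ≤ (b / 2) ^ 2 := pow_le_pow_left₀ (norm_nonneg s) h 2
        nlinarith
      rw [e, norm_div, norm_mul, norm_mul, Complex.norm_real, Real.norm_eq_abs, Complex.norm_ofNat]
      rw [div_le_iff₀ (lt_of_lt_of_le (by positivity) lo)]
      calc |rr g b v| * (2 * ‖s‖) = 8 * ‖s‖ / (3 * b ^ 2) * |rr g b v| * (3 / 4 * b ^ 2) := by
            field_simp
            ring
        _ ≤ 8 * ‖s‖ / (3 * b ^ 2) * |rr g b v| * ‖s ^ 2 - (v : ℂ) ^ 2‖ := by gcongr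
  rw [integral_const_mul, norm_mul, Complex.norm_ofNat] at e3
  have e4 := integral_abs_rr hg hb hgb
  have e5 : 2 * ‖Rt g b s‖ ≤ 8 * ‖s‖ / (3 * b ^ 2) * (26 * g / b) := e3.trans (by gcongr)
  have e6 : 8 * ‖s‖ / (3 * b ^ 2) * (26 * g / b) = (208 / 3) * (g * ‖s‖ / b ^ 3) := by
    field_simp
    ring
  have e7 : 35 * g * ‖s‖ / b ^ 3 = 35 * (g * ‖s‖ / b ^ 3) := by ring
  have e8 : 0 ≤ g * ‖s‖ / b ^ 3 := by positivity
  rw [e7]
  rw [e6] at e5
  linarith

theorem Rt_all (hg : 0 < g) (hb : 0 < b) (hgb : g ≤ b) {s : ℂ} (hs : s.im < 0) :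
    ‖Rt g b s‖ ≤ 36 * g / b ^ 2 := by
  have hpi := Real.pi_pos
  set x0 : ℝ := -s.re with hx0
  set ph : ℝ → ℝ := fun v => Real.pi * b * cd b (v - x0) with hph
  have hphi : Integrable ph := ((integrable_cd hb).comp_sub_right x0).const_mul _
  have hphv : ∀ v, ph v = b ^ 2 / ((v - x0) ^ 2 + b ^ 2) := by
    intro v
    simp only [hph]
    unfold cd
    field_simp
  have hph0 : ∀ v, 0 ≤ ph v := fun v => by rw [hphv]; positivity
  have hphint : ∫ v, ph v = Real.pi * b := by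
    simp only [hph]
    rw [integral_const_mul, integral_sub_right_eq_self (fun v => cd b v) x0, integral_cd hb, mul_one]
  -- the resolvent transform of ph
  have hs' : (s + x0).im < 0 := by simpa using hs
  have hphr : ‖∫ v : ℝ, (ph v : ℂ) / ((v : ℂ) + s)‖ ≤ Real.pi := by
    have e1 : ∫ v : ℝ, (ph v : ℂ) / ((v : ℂ) + s) =
        ∫ v : ℝ, (Real.pi * b : ℂ) * ((cd b v : ℂ) / ((v : ℂ) + (s + x0))) := by
      rw [← integral_sub_right_eq_self (fun v : ℝ => (Real.pi * b : ℂ) *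
        ((cd b v : ℂ) / ((v : ℂ) + (s + x0)))) x0]
      refine integral_congr_ae (ae_of_all _ fun v => ?_)
      simp only [hph]
      push_cast
      have : (v : ℂ) - x0 + (s + x0) = (v : ℂ) + s := by ring
      rw [this]
      ring
    rw [e1, integral_const_mul, integral_cd_div hb hs', norm_mul, norm_div, norm_one]
    have e2 : b ≤ ‖s + (x0 : ℂ) - b * I‖ := by
      have := Complex.abs_im_le_norm (s + (x0 : ℂ) - b * I)
      simp at this
      have h3 := neg_le_abs (s.im - b)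
      linarith
    have e3 : ‖(Real.pi * b : ℂ)‖ = Real.pi * b := by
      rw [norm_mul, Complex.norm_real, Complex.norm_real, Real.norm_of_nonneg hpi.le,
        Real.norm_of_nonneg hb.le]
    rw [e3, mul_one_div, div_le_iff₀ (by linarith)]
    gcongr
  set r0 : ℝ := rr g b x0 with hr0
  have hr0b : |r0| ≤ g / (Real.pi * b ^ 2) := (abs_rr_le' hg hb x0).trans (cd_le hg hb)
  have hi1 := integrable_div (integrable_rr hg hb hgb) hs
  have hi2 := integrable_div hphi hs
  have e1 : Rt g b s = (∫ v : ℝ, ((rr g b v : ℂ) / ((v : ℂ) + s) -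
      (r0 : ℂ) * ((ph v : ℂ) / ((v : ℂ) + s)))) + (r0 : ℂ) * ∫ v : ℝ, (ph v : ℂ) / ((v : ℂ) + s) := by
    rw [integral_sub hi1 (hi2.const_mul _), integral_const_mul]
    unfold Rt
    ring
  have hG : Integrable fun v => (7 / 3 * g / b ^ 3) * ph v + (1 / b) * (|rr g b v| + |r0| * ph v) :=
    (hphi.const_mul _).add (((integrable_rr hg hb hgb).abs.add (hphi.const_mul _)).const_mul _)
  have e2 : ‖∫ v : ℝ, ((rr g b v : ℂ) / ((v : ℂ) + s) -
      (r0 : ℂ) * ((ph v : ℂ) / ((v : ℂ) + s)))‖ ≤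
      ∫ v, ((7 / 3 * g / b ^ 3) * ph v + (1 / b) * (|rr g b v| + |r0| * ph v)) := by
    refine norm_integral_le_of_norm_le hG (ae_of_all _ fun v => ?_)
    have n1 := add_ne hs v
    have e3 : (rr g b v : ℂ) / ((v : ℂ) + s) - (r0 : ℂ) * ((ph v : ℂ) / ((v : ℂ) + s)) =
        ((rr g b v - r0 * ph v : ℝ) : ℂ) / ((v : ℂ) + s) := by
      push_cast
      field_simp
    rw [e3, norm_div, Complex.norm_real, Real.norm_eq_abs]
    have hre : |v - x0| ≤ ‖(v : ℂ) + s‖ := by
      have := Complex.abs_re_le_norm ((v : ℂ) + s)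
      simp at this
      have h3 : v - x0 = v + s.re := by rw [hx0]; ring
      rwa [h3]
    have hpos : 0 < ‖(v : ℂ) + s‖ := norm_pos_iff.2 n1
    rcases le_total |v - x0| b with hv | hv
    · -- near part
      have k1 : |rr g b v - r0 * ph v| ≤ (7 / 6 * g / b ^ 3) * |v - x0| := by
        have k2 := lip_rr hg hb v x0
        have k3 : |r0 * (1 - ph v)| ≤ g / (Real.pi * b ^ 2) * (|v - x0| / (2 * b)) := by
          rw [abs_mul]
          have k4 : |1 - ph v| ≤ |v - x0| / (2 * b) := by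
            rw [hphv]
            have k5 : 1 - b ^ 2 / ((v - x0) ^ 2 + b ^ 2) = (v - x0) ^ 2 / ((v - x0) ^ 2 + b ^ 2) := by
              have : (v - x0) ^ 2 + b ^ 2 ≠ 0 := by positivity
              field_simp
              ring
            rw [k5, abs_of_nonneg (by positivity), div_le_div_iff₀ (by positivity) (by positivity),
              ← sq_abs (v - x0)]
            nlinarith [sq_nonneg (|v - x0| - b), abs_nonneg (v - x0)]
          exact mul_le_mul hr0b k4 (abs_nonneg _) (by positivity)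
        have k6 : rr g b v - r0 * ph v = (rr g b v - rr g b x0) + r0 * (1 - ph v) := by
          rw [hr0]; ring
        have k7 : g / (Real.pi * b ^ 2) * (|v - x0| / (2 * b)) ≤ g / b ^ 3 * |v - x0| * (1 / 6) := by
          have k8 : g / (Real.pi * b ^ 2) * (|v - x0| / (2 * b)) =
            g / b ^ 3 * |v - x0| * (1 / (2 * Real.pi)) := by
              field_simp
          rw [k8]
          have k9 : 1 / (2 * Real.pi) ≤ 1 / 6 := by
            apply one_div_le_one_div_of_le <;> linarith [Real.pi_gt_three]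
          gcongr
        rw [k6]
        refine (abs_add_le _ _).trans ?_
        have k10 : (7 / 6 * g / b ^ 3) * |v - x0| = g / b ^ 3 * |v - x0| +
          g / b ^ 3 * |v - x0| * (1 / 6) := by ring
        rw [k10]
        exact add_le_add k2 (k3.trans k7)
      have k2 : (1 / 2 : ℝ) ≤ ph v := by
        rw [hphv, div_le_div_iff₀ (by positivity) (by positivity)]
        have : (v - x0) ^ 2 ≤ b ^ 2 := by
          rw [← sq_abs (v - x0)]
          exact pow_le_pow_left₀ (abs_nonneg _) hv 2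
        linarith
      have k3 : |rr g b v - r0 * ph v| / ‖(v : ℂ) + s‖ ≤ 7 / 6 * g / b ^ 3 := by
        rw [div_le_iff₀ hpos]
        exact k1.trans (by gcongr)
      have k4 : 0 ≤ (1 / b) * (|rr g b v| + |r0| * ph v) := by
        have := hph0 v
        positivity
      have k5 : 0 ≤ g / b ^ 3 := by positivity
      have k6 : 7 / 6 * g / b ^ 3 = (7 / 3 * g / b ^ 3) * (1 / 2) := by ring
      have k7 : (7 / 3 * g / b ^ 3) * (1 / 2) ≤ (7 / 3 * g / b ^ 3) * ph v := by gcongr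
      linarith
    · -- far part
      have k1 : |rr g b v - r0 * ph v| ≤ |rr g b v| + |r0| * ph v := by
        refine (abs_sub _ _).trans ?_
        rw [abs_mul, abs_of_nonneg (hph0 v)]
      have k2 : |rr g b v - r0 * ph v| / ‖(v : ℂ) + s‖ ≤ (1 / b) * (|rr g b v| + |r0| * ph v) := by
        rw [div_le_iff₀ hpos]
        have k3 : b ≤ ‖(v : ℂ) + s‖ := hv.trans hre
        have k4 : 0 ≤ |rr g b v| + |r0| * ph v := (abs_nonneg _).trans k1
        calc |rr g b v - r0 * ph v| ≤ |rr g b v| + |r0| * ph v := k1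
          _ = (1 / b) * (|rr g b v| + |r0| * ph v) * b := by field_simp
          _ ≤ (1 / b) * (|rr g b v| + |r0| * ph v) * ‖(v : ℂ) + s‖ := by gcongr
      have k5 : 0 ≤ (7 / 3 * g / b ^ 3) * ph v := by
        have := hph0 v
        positivity
      linarith
  have e4 : ∫ v, ((7 / 3 * g / b ^ 3) * ph v + (1 / b) * (|rr g b v| + |r0| * ph v)) =
      (7 / 3 * g / b ^ 3) * (Real.pi * b) + (1 / b) * ((∫ v, |rr g b v|) + |r0| * (Real.pi * b)) := by
    have j1 : Integrable fun v => (7 / 3 * g / b ^ 3) * ph v := hphi.const_mul _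
    have j2 : Integrable fun v => |rr g b v| := (integrable_rr hg hb hgb).abs
    have j3 : Integrable fun v => |r0| * ph v := hphi.const_mul _
    have j4 : Integrable fun v => |rr g b v| + |r0| * ph v := j2.add j3
    have j5 : Integrable fun v => (1 / b) * (|rr g b v| + |r0| * ph v) := j4.const_mul _
    have l1 : ∫ v, (7 / 3 * g / b ^ 3) * ph v = (7 / 3 * g / b ^ 3) * (Real.pi * b) :=
      (integral_const_mul _ ph).trans (by rw [hphint])
    have l2 : ∫ v, |r0| * ph v = |r0| * (Real.pi * b) :=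
      (integral_const_mul _ ph).trans (by rw [hphint])
    have l3 : ∫ v, (1 / b) * (|rr g b v| + |r0| * ph v) =
        (1 / b) * ∫ v, (|rr g b v| + |r0| * ph v) := integral_const_mul _ _
    rw [integral_add j1 j5, l1, l3, integral_add j2 j3, l2]
  rw [e4] at e2
  have e5 := integral_abs_rr hg hb hgb
  have e6 : |r0| * (Real.pi * b) ≤ g / b := by
    calc |r0| * (Real.pi * b) ≤ g / (Real.pi * b ^ 2) * (Real.pi * b) := by gcongr
      _ = g / b := by field_simp
  have e7 : (1 / b) * ((∫ v, |rr g b v|) + |r0| * (Real.pi * b)) ≤ (1 / b) * (26 * g / b + g / b) := by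
    gcongr
  have e8 : ‖(r0 : ℂ) * ∫ v : ℝ, (ph v : ℂ) / ((v : ℂ) + s)‖ ≤ g / b ^ 2 := by
    rw [norm_mul, Complex.norm_real, Real.norm_eq_abs]
    calc |r0| * ‖∫ v : ℝ, (ph v : ℂ) / ((v : ℂ) + s)‖ ≤ g / (Real.pi * b ^ 2) * Real.pi := by
          gcongr
      _ = g / b ^ 2 := by field_simp
  have e9 : (7 / 3 * g / b ^ 3) * (Real.pi * b) ≤ 8 * (g / b ^ 2) := by
    have h1 : (7 / 3 * g / b ^ 3) * (Real.pi * b) = (7 / 3 * Real.pi) * (g / b ^ 2) := by
      field_simp
    rw [h1]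
    have h2 : 7 / 3 * Real.pi ≤ 8 := by
      have := Real.pi_lt_d2
      linarith
    gcongr
  have e10 : (1 / b) * (26 * g / b + g / b) = 27 * (g / b ^ 2) := by
    field_simp
    ring
  rw [e1]
  refine (norm_add_le _ _).trans ?_
  have e11 : 36 * g / b ^ 2 = 36 * (g / b ^ 2) := by ring
  rw [e11]
  linarith

theorem integral_ff_sq_le (hg : 0 < g) (hb : 0 < b) (hgb : g ≤ b) :
    ∫ v, ff g b v * v ^ 2 ≤ 80 * g * b := by
  have hpi := Real.pi_pos
  have h1 : ∀ v, ff g b v * v ^ 2 ≤ (Icc (-(5 * b)) (5 * b)).indicator (fun _ => 8 * g) v := by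
    intro v
    by_cases hv : v ∈ Icc (-(5 * b)) (5 * b)
    · rw [indicator_of_mem hv]
      have h2 := ff_le hg hb hgb v
      have h3 : cd g v * v ^ 2 ≤ g / Real.pi := by
        unfold cd
        rw [div_mul_eq_mul_div, div_le_div_iff₀ (by positivity) hpi]
        nlinarith [sq_nonneg g, mul_pos hg hpi, sq_nonneg v, mul_nonneg (mul_pos hg hpi).le
          (sq_nonneg g)]
      have h4 : 25 * (g / Real.pi) ≤ 25 * (g / 3.14) := by
        have := Real.pi_gt_d2
        gcongr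
      have h5 : 25 * (g / 3.14) ≤ 8 * g := by
        rw [mul_div_assoc']
        rw [div_le_iff₀ (by norm_num)]
        nlinarith
      calc ff g b v * v ^ 2 ≤ 25 * cd g v * v ^ 2 := by gcongr
        _ = 25 * (cd g v * v ^ 2) := by ring
        _ ≤ 25 * (g / Real.pi) := by gcongr
        _ ≤ 8 * g := h4.trans h5
    · rw [indicator_of_notMem hv, ff_eq_zero hg hb hgb, zero_mul]
      by_contra hc
      exact hv (abs_le.1 (not_le.1 hc).le)
  have hi : Integrable fun v => (Icc (-(5 * b)) (5 * b)).indicator (fun _ => 8 * g) v :=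
    (integrable_indicator_iff measurableSet_Icc).2 continuous_const.integrableOn_Icc
  have h2 := integral_mono_of_nonneg (ae_of_all _ fun v => mul_nonneg (ff_nonneg hg hb v)
    (sq_nonneg v)) hi (ae_of_all _ h1)
  refine h2.trans (le_of_eq ?_)
  rw [integral_indicator measurableSet_Icc, setIntegral_const, smul_eq_mul]
  simp only [Real.volume_real_Icc]
  rw [max_eq_left (by linarith)]
  ring

theorem integrable_ff_mul {f : ℝ → ℂ} (hg : 0 < g) (hb : 0 < b) (hgb : g ≤ b)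
    (hf : Continuous f) : Integrable fun v : ℝ => (ff g b v : ℂ) * f v := by
  have hc : Continuous fun v : ℝ => (ff g b v : ℂ) * f v :=
    (Complex.continuous_ofReal.comp (continuous_ff hg hb)).mul hf
  refine hc.integrable_of_hasCompactSupport ?_
  refine HasCompactSupport.of_support_subset_isCompact (isCompact_Icc (a := -(5 * b)) (b := 5 * b))
    ?_
  intro v hv
  by_contra hc
  refine hv ?_
  simp only
  rw [ff_eq_zero hg hb hgb, Complex.ofReal_zero, zero_mul]
  by_contra hc'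
  exact hc (abs_le.1 (not_le.1 hc').le)

theorem Rt_large (hg : 0 < g) (hb : 0 < b) (hgb : g ≤ b) {s : ℂ} (hs : s.im < 0)
    (h : 10 * b ≤ ‖s‖) : ‖Rt g b s‖ ≤ 17 * g / ‖s‖ ^ 2 := by
  have hs0 : s ≠ 0 := by
    intro h0
    rw [h0] at hs
    simp at hs
  have hsn : 0 < ‖s‖ := norm_pos_iff.2 hs0
  have hodd : ∫ v : ℝ, (ff g b v : ℂ) * (v : ℂ) = 0 := by
    have h1 := integral_neg_eq_self (fun v : ℝ => (ff g b v : ℂ) * (v : ℂ)) volume
    have h2 : (fun v : ℝ => (ff g b (-v) : ℂ) * ((-v : ℝ) : ℂ)) =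
        fun v => -((ff g b v : ℂ) * (v : ℂ)) := by
      ext v
      rw [ff_neg]
      push_cast
      ring
    rw [h2, integral_neg] at h1
    linear_combination (-1 / 2 : ℂ) * h1
  have hone : ∫ v : ℝ, (ff g b v : ℂ) = 1 := by
    rw [integral_complex_ofReal, integral_ff hg hb hgb]
    simp
  have hc0 : Continuous fun v : ℝ => ((v : ℂ) + s)⁻¹ :=
    (by fun_prop : Continuous fun v : ℝ => (v : ℂ) + s).inv₀ fun v => add_ne hs v
  have i1 : Integrable fun v : ℝ => (ff g b v : ℂ) / ((v : ℂ) + s) :=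
    integrable_div (integrable_ff hg hb hgb) hs
  have i2 : Integrable fun v : ℝ => (ff g b v : ℂ) * (1 / s) :=
    integrable_ff_mul hg hb hgb continuous_const
  have i3 : Integrable fun v : ℝ => (ff g b v : ℂ) * (v : ℂ) :=
    integrable_ff_mul hg hb hgb Complex.continuous_ofReal
  have i4 : Integrable fun v : ℝ => (ff g b v : ℂ) * ((v : ℂ) ^ 2 * ((v : ℂ) + s)⁻¹) :=
    integrable_ff_mul hg hb hgb (by
      exact (by fun_prop : Continuous fun v : ℝ => (v : ℂ) ^ 2).mul hc0)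
  have e1 : ∫ v : ℝ, (ff g b v : ℂ) / ((v : ℂ) + s) = 1 / s +
      (1 / s ^ 2) * ∫ v : ℝ, (ff g b v : ℂ) * ((v : ℂ) ^ 2 * ((v : ℂ) + s)⁻¹) := by
    have e2 : ∀ v : ℝ, (ff g b v : ℂ) / ((v : ℂ) + s) = (ff g b v : ℂ) * (1 / s) -
        (1 / s ^ 2) * ((ff g b v : ℂ) * (v : ℂ)) +
        (1 / s ^ 2) * ((ff g b v : ℂ) * ((v : ℂ) ^ 2 * ((v : ℂ) + s)⁻¹)) := by
      intro v
      have n1 := add_ne hs v
      field_simp
      ring
    simp_rw [e2]
    have j3 : Integrable fun v : ℝ => (1 / s ^ 2) * ((ff g b v : ℂ) * (v : ℂ)) := i3.const_mul _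
    have j4 : Integrable fun v : ℝ => (1 / s ^ 2) *
        ((ff g b v : ℂ) * ((v : ℂ) ^ 2 * ((v : ℂ) + s)⁻¹)) := i4.const_mul _
    have j5 : Integrable fun v : ℝ => (ff g b v : ℂ) * (1 / s) -
        (1 / s ^ 2) * ((ff g b v : ℂ) * (v : ℂ)) := i2.sub j3
    rw [integral_add j5 j4, integral_sub i2 j3,
      integral_mul_const, integral_const_mul, integral_const_mul, hodd, hone]
    ring
  have e3 : ‖∫ v : ℝ, (ff g b v : ℂ) * ((v : ℂ) ^ 2 * ((v : ℂ) + s)⁻¹)‖ ≤
      ∫ v, (2 / ‖s‖) * (ff g b v * v ^ 2) := by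
    have i5 : Integrable fun v => ff g b v * v ^ 2 := by
      have := (integrable_ff_mul hg hb hgb (f := fun v : ℝ => (v : ℂ) ^ 2) (by fun_prop)).re
      refine this.congr (ae_of_all _ fun v => ?_)
      simp only
      norm_cast
    refine norm_integral_le_of_norm_le (i5.const_mul _) (ae_of_all _ fun v => ?_)
    have hf0 := ff_nonneg hg hb v
    rcases le_total (5 * b) |v| with hv | hv
    · simp [ff_eq_zero hg hb hgb hv]
    · have lo : ‖s‖ / 2 ≤ ‖(v : ℂ) + s‖ := by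
        have h1 : ‖s‖ - ‖(v : ℂ)‖ ≤ ‖(v : ℂ) + s‖ := by
          have := norm_sub_norm_le s (-(v : ℂ))
          rw [norm_neg, sub_neg_eq_add, add_comm s] at this
          exact this
        rw [Complex.norm_real, Real.norm_eq_abs] at h1
        linarith
      rw [norm_mul, norm_mul, norm_inv, norm_pow, Complex.norm_real, Complex.norm_real,
        Real.norm_eq_abs, Real.norm_eq_abs, abs_of_nonneg hf0, sq_abs]
      have h2 : ‖(v : ℂ) + s‖⁻¹ ≤ 2 / ‖s‖ := by
        rw [← one_div, div_le_div_iff₀ (lt_of_lt_of_le (by positivity) lo) hsn]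
        linarith
      calc ff g b v * (v ^ 2 * ‖(v : ℂ) + s‖⁻¹) ≤ ff g b v * (v ^ 2 * (2 / ‖s‖)) := by gcongr
        _ = 2 / ‖s‖ * (ff g b v * v ^ 2) := by ring
  rw [integral_const_mul] at e3
  have e4 := integral_ff_sq_le hg hb hgb
  have e5 : ‖∫ v : ℝ, (ff g b v : ℂ) * ((v : ℂ) ^ 2 * ((v : ℂ) + s)⁻¹)‖ ≤ 16 * g := by
    refine e3.trans ?_
    calc 2 / ‖s‖ * ∫ v, ff g b v * v ^ 2 ≤ 2 / ‖s‖ * (80 * g * b) := by gcongr
      _ ≤ 2 / ‖s‖ * (80 * g * (‖s‖ / 10)) := by gcongr; linarith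
      _ = 16 * g := by field_simp; norm_num
  have e6 : Rt g b s = (1 / s - 1 / (s - g * I)) +
      (1 / s ^ 2) * ∫ v : ℝ, (ff g b v : ℂ) * ((v : ℂ) ^ 2 * ((v : ℂ) + s)⁻¹) := by
    have := integral_ff_div hg hb hgb hs
    rw [e1] at this
    linear_combination -this
  have hsg : ‖s‖ ≤ ‖s - g * I‖ := by
    have h1 : ‖s‖ ^ 2 ≤ ‖s - g * I‖ ^ 2 := by
      rw [← Complex.normSq_eq_norm_sq, ← Complex.normSq_eq_norm_sq, Complex.normSq_apply,
        Complex.normSq_apply]
      simp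
      nlinarith
    exact (sq_le_sq₀ (norm_nonneg _) (norm_nonneg _)).1 h1
  have hsg0 : s - g * I ≠ 0 := norm_pos_iff.1 (lt_of_lt_of_le hsn hsg)
  have e7 : ‖1 / s - 1 / (s - g * I)‖ ≤ g / ‖s‖ ^ 2 := by
    have e8 : 1 / s - 1 / (s - g * I) = -(g * I) / (s * (s - g * I)) := by
      field_simp
      ring
    rw [e8, norm_div, norm_neg, norm_mul, norm_mul, Complex.norm_I, Complex.norm_real,
      Real.norm_of_nonneg hg.le, mul_one, sq]
    gcongr
  rw [e6]
  refine (norm_add_le _ _).trans ?_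
  have e9 : ‖(1 / s ^ 2) * ∫ v : ℝ, (ff g b v : ℂ) * ((v : ℂ) ^ 2 * ((v : ℂ) + s)⁻¹)‖ ≤
      16 * g / ‖s‖ ^ 2 := by
    rw [norm_mul, norm_div, norm_one, norm_pow]
    calc 1 / ‖s‖ ^ 2 * ‖∫ v : ℝ, (ff g b v : ℂ) * ((v : ℂ) ^ 2 * ((v : ℂ) + s)⁻¹)‖ ≤
        1 / ‖s‖ ^ 2 * (16 * g) := by gcongr
      _ = 16 * g / ‖s‖ ^ 2 := by ring
  have e10 : 17 * g / ‖s‖ ^ 2 = g / ‖s‖ ^ 2 + 16 * g / ‖s‖ ^ 2 := by ring
  rw [e10]
  exact add_le_add e7 e9

/-- uniform form of the bound on Rt -/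
theorem Rt_le (hg : 0 < g) (hb : 0 < b) (hgb : g ≤ b) {s : ℂ} (hs : s.im < 0) :
    ‖Rt g b s‖ ≤ 4400 * g / (‖s‖ + b) ^ 2 := by
  have hn := norm_nonneg s
  rcases le_total ‖s‖ (10 * b) with h | h
  · refine (Rt_all hg hb hgb hs).trans ?_
    rw [div_le_div_iff₀ (by positivity) (by positivity)]
    have h1 : (‖s‖ + b) ^ 2 ≤ (11 * b) ^ 2 := by
      apply pow_le_pow_left₀ (by positivity)
      linarith
    calc 36 * g * (‖s‖ + b) ^ 2 ≤ 36 * g * (11 * b) ^ 2 := by gcongr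
      _ ≤ 4400 * g * b ^ 2 := by
        have : 0 ≤ g * b ^ 2 := by positivity
        nlinarith
  · refine (Rt_large hg hb hgb hs h).trans ?_
    have hs1 : 0 < ‖s‖ := by linarith
    rw [div_le_div_iff₀ (by positivity) (by positivity)]
    have h1 : (‖s‖ + b) ^ 2 ≤ (11 / 10 * ‖s‖) ^ 2 := by
      apply pow_le_pow_left₀ (by positivity)
      linarith
    calc 17 * g * (‖s‖ + b) ^ 2 ≤ 17 * g * (11 / 10 * ‖s‖) ^ 2 := by gcongr
      _ ≤ 4400 * g * ‖s‖ ^ 2 := by
        have : 0 ≤ g * ‖s‖ ^ 2 := by positivity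
        nlinarith

end Pool.Agent.Lib.MP_562b47_mp.SL
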