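import Mathlib

/-!
Shaped laws, part 1: the Cauchy density and its resolvent transform.
(Uniform planar Anderson model, MP_562b47_mp.)
-/

open MeasureTheory Filter Topology Complex Set

namespace Pool.Agent.Lib.MP_562b47_mp.SL

/-- density of the Cauchy law of scale g -/
noncomputable def cd (g v : ℝ) : ℝ := g / (Real.pi * (v ^ 2 + g ^ 2))

theorem cd_nonneg {g : ℝ} (hg : 0 < g) (v : ℝ) : 0 ≤ cd g v := by
  unfold cd; positivity

theorem cd_pos {g : ℝ} (hg : 0 < g) (v : ℝ) : 0 < cd g v := by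
  unfold cd; positivity

theorem continuous_cd {g : ℝ} (hg : 0 < g) : Continuous (cd g) := by
  unfold cd
  refine continuous_const.div (by fun_prop) fun v => ?_
  positivity

theorem cd_eq {g : ℝ} (hg : 0 < g) (v : ℝ) :
    cd g v = (Real.pi)⁻¹ * (g⁻¹ * (1 + (v / g) ^ 2)⁻¹) := by
  unfold cd
  have h1 : (v ^ 2 + g ^ 2) ≠ 0 := by positivity
  have h2 : 1 + (v / g) ^ 2 ≠ 0 := by positivity
  field_simp
  ring

theorem integrable_cd {g : ℝ} (hg : 0 < g) : Integrable (cd g) := by
  have h1 : Integrable fun v : ℝ => (1 + (v / g) ^ 2)⁻¹ :=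
    integrable_inv_one_add_sq.comp_div hg.ne'
  refine ((h1.const_mul g⁻¹).const_mul (Real.pi)⁻¹).congr (ae_of_all _ fun v => ?_)
  exact (cd_eq hg v).symm

theorem integral_cd {g : ℝ} (hg : 0 < g) : ∫ v, cd g v = 1 := by
  simp_rw [cd_eq hg]
  rw [integral_const_mul, integral_const_mul]
  rw [Measure.integral_comp_div (fun y : ℝ => (1 + y ^ 2)⁻¹) g, integral_univ_inv_one_add_sq]
  rw [abs_of_pos hg, smul_eq_mul]
  have := Real.pi_pos.ne'
  field_simp

theorem integral_Ioi_cd {g : ℝ} (hg : 0 < g) (b : ℝ) :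
    ∫ v in Ioi b, cd g v = (Real.pi)⁻¹ * (Real.pi / 2 - Real.arctan (b / g)) := by
  simp_rw [cd_eq hg]
  rw [integral_const_mul, integral_const_mul]
  have h := integral_comp_mul_right_Ioi (fun y : ℝ => (1 + y ^ 2)⁻¹) b (inv_pos.2 hg)
  simp only [← div_eq_mul_inv] at h
  rw [h, integral_Ioi_inv_one_add_sq, smul_eq_mul, inv_inv]
  field_simp

theorem sub_ne {α : ℂ} (hα : 0 < α.im) (v : ℝ) : (v : ℂ) - α ≠ 0 := by
  intro h
  have := congrArg Complex.im h
  simp at this
  exact hα.ne' this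

theorem normSq_sub (α : ℂ) (v : ℝ) : ‖(v : ℂ) - α‖ ^ 2 = (v - α.re) ^ 2 + α.im ^ 2 := by
  rw [← Complex.normSq_eq_norm_sq, Complex.normSq_apply]
  simp
  ring

theorem integrable_inv_sq {α : ℂ} (hα : 0 < α.im) :
    Integrable (fun v : ℝ => (‖(v : ℂ) - α‖ ^ 2)⁻¹) := by
  have h := ((integrable_cd hα).comp_sub_right α.re).const_mul (Real.pi / α.im)
  refine h.congr (ae_of_all _ fun v => ?_)
  simp only [normSq_sub]
  unfold cd
  have h1 : (v - α.re) ^ 2 + α.im ^ 2 ≠ 0 := by positivity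
  have := Real.pi_pos.ne'
  have := hα.ne'
  field_simp

theorem integrable_two_poles {α β : ℂ} (hα : 0 < α.im) (hβ : 0 < β.im) :
    Integrable (fun v : ℝ => 1 / (((v : ℂ) - α) * ((v : ℂ) - β))) := by
  have h := (integrable_inv_sq hα).add (integrable_inv_sq hβ)
  refine h.mono' ?_ (ae_of_all _ fun v => ?_)
  · refine (Continuous.aestronglyMeasurable ?_)
    refine continuous_const.div (by fun_prop) fun v => mul_ne_zero (sub_ne hα v) (sub_ne hβ v)
  · have h1 : 0 < ‖(v : ℂ) - α‖ := norm_pos_iff.2 (sub_ne hα v)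
    have h2 : 0 < ‖(v : ℂ) - β‖ := norm_pos_iff.2 (sub_ne hβ v)
    rw [norm_div, norm_mul, norm_one, Pi.add_apply, one_div, mul_inv, ← inv_pow, ← inv_pow]
    set x := ‖(v : ℂ) - α‖⁻¹
    set y := ‖(v : ℂ) - β‖⁻¹
    nlinarith [sq_nonneg (x - y), sq_nonneg x, sq_nonneg y]

theorem tendsto_ratio (α β : ℂ) {l : Filter ℝ} (hl : Tendsto (fun v : ℝ => |v|) l atTop)
    (hβ : 0 < β.im) :
    Tendsto (fun v : ℝ => ((v : ℂ) - α) / ((v : ℂ) - β)) l (𝓝 1) := by
  have h1 : Tendsto (fun v : ℝ => ‖(v : ℂ) - β‖) l atTop := by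
    refine tendsto_atTop_mono (fun v => ?_) (tendsto_atTop_add_const_right l (-‖β‖) hl)
    have := norm_sub_norm_le (v : ℂ) β
    rw [Complex.norm_real, Real.norm_eq_abs] at this
    linarith
  have h2 : Tendsto (fun v : ℝ => ((v : ℂ) - β)⁻¹) l (𝓝 0) := by
    rw [tendsto_zero_iff_norm_tendsto_zero]
    simp only [norm_inv]
    exact h1.inv_tendsto_atTop
  have h3 : Tendsto (fun v : ℝ => 1 + (β - α) * ((v : ℂ) - β)⁻¹) l (𝓝 (1 + (β - α) * 0)) :=
    (h2.const_mul (β - α)).const_add 1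
  rw [mul_zero, add_zero] at h3
  refine h3.congr fun v => ?_
  have := sub_ne hβ v
  field_simp
  ring

theorem ratio_slit {α β : ℂ} (hα : 0 < α.im) (hβ : 0 < β.im) (v : ℝ) :
    ((v : ℂ) - α) / ((v : ℂ) - β) ∈ Complex.slitPlane := by
  rw [Complex.mem_slitPlane_iff]
  by_contra hc
  push Not at hc
  obtain ⟨h1, h2⟩ := hc
  set z := ((v : ℂ) - α) / ((v : ℂ) - β) with hz
  have h3 : (v : ℂ) - α = z * ((v : ℂ) - β) := by
    rw [hz]; field_simp [sub_ne hβ v]
  have h4 := congrArg Complex.im h3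
  simp only [Complex.sub_im, Complex.ofReal_im, Complex.mul_im, Complex.sub_re, h2] at h4
  nlinarith

/-- two poles in the upper half plane -/
theorem integral_two_poles {α β : ℂ} (hα : 0 < α.im) (hβ : 0 < β.im) :
    ∫ v : ℝ, 1 / (((v : ℂ) - α) * ((v : ℂ) - β)) = 0 := by
  rcases eq_or_ne α β with rfl | hne
  · have hd : ∀ v : ℝ, HasDerivAt (fun v : ℝ => -((v : ℂ) - α)⁻¹)
        (1 / (((v : ℂ) - α) * ((v : ℂ) - α))) v := by
      intro v
      have h1 : HasDerivAt (fun v : ℝ => (v : ℂ) - α) 1 v :=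
        (Complex.ofRealCLM.hasDerivAt (x := v)).sub_const α
      have h2 := (h1.inv (sub_ne hα v)).neg
      refine h2.congr_deriv ?_
      rw [neg_div, neg_neg, pow_two]
    have ht : ∀ l : Filter ℝ, Tendsto (fun v : ℝ => |v|) l atTop →
        Tendsto (fun v : ℝ => -((v : ℂ) - α)⁻¹) l (𝓝 0) := by
      intro l hl
      have h1 : Tendsto (fun v : ℝ => ‖(v : ℂ) - α‖) l atTop := by
        refine tendsto_atTop_mono (fun v => ?_) (tendsto_atTop_add_const_right l (-‖α‖) hl)
        have := norm_sub_norm_le (v : ℂ) α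
        rw [Complex.norm_real, Real.norm_eq_abs] at this
        linarith
      rw [tendsto_zero_iff_norm_tendsto_zero]
      simp only [norm_neg, norm_inv]
      exact h1.inv_tendsto_atTop
    have h := integral_of_hasDerivAt_of_tendsto hd (integrable_two_poles hα hα)
      (ht atBot tendsto_abs_atBot_atTop) (ht atTop tendsto_abs_atTop_atTop)
    rw [h, sub_zero]
  · have hab : α - β ≠ 0 := sub_ne_zero.2 hne
    have hd : ∀ v : ℝ, HasDerivAt
        (fun v : ℝ => (α - β)⁻¹ * Complex.log (((v : ℂ) - α) / ((v : ℂ) - β)))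
        (1 / (((v : ℂ) - α) * ((v : ℂ) - β))) v := by
      intro v
      have h1 : HasDerivAt (fun v : ℝ => (v : ℂ) - α) 1 v :=
        (Complex.ofRealCLM.hasDerivAt (x := v)).sub_const α
      have h1' : HasDerivAt (fun v : ℝ => (v : ℂ) - β) 1 v :=
        (Complex.ofRealCLM.hasDerivAt (x := v)).sub_const β
      have h2 := ((h1.div h1' (sub_ne hβ v)).clog_real (ratio_slit hα hβ v)).const_mul (α - β)⁻¹
      refine h2.congr_deriv ?_
      have e1 := sub_ne hα v
      have e2 := sub_ne hβ v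
      simp only [Pi.div_apply]
      field_simp
      ring
    have ht : ∀ l : Filter ℝ, Tendsto (fun v : ℝ => |v|) l atTop →
        Tendsto (fun v : ℝ => (α - β)⁻¹ * Complex.log (((v : ℂ) - α) / ((v : ℂ) - β))) l
          (𝓝 0) := by
      intro l hl
      have h1 := tendsto_ratio α β hl hβ
      have h2 : Tendsto (fun v : ℝ => Complex.log (((v : ℂ) - α) / ((v : ℂ) - β))) l
          (𝓝 (Complex.log 1)) :=
        (continuousAt_clog (by simp [Complex.mem_slitPlane_iff])).tendsto.comp h1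
      have h3 := h2.const_mul (α - β)⁻¹
      rwa [Complex.log_one, mul_zero] at h3
    have h := integral_of_hasDerivAt_of_tendsto hd (integrable_two_poles hα hβ)
      (ht atBot tendsto_abs_atBot_atTop) (ht atTop tendsto_abs_atTop_atTop)
    rw [h, sub_zero]

theorem add_ne {s : ℂ} (hs : s.im < 0) (v : ℝ) : (v : ℂ) + s ≠ 0 := by
  intro h
  have := congrArg Complex.im h
  simp at this
  exact hs.ne this

/-- the exact Cauchy identity -/
theorem integral_cd_mobius {g : ℝ} (hg : 0 < g) {s : ℂ} (hs : s.im < 0) :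
    ∫ v : ℝ, (cd g v : ℂ) * (((v : ℂ) + g * I) / ((v : ℂ) + s)) = 0 := by
  have h1 : ∀ v : ℝ, (cd g v : ℂ) * (((v : ℂ) + g * I) / ((v : ℂ) + s)) =
      ((g / Real.pi : ℝ) : ℂ) * (1 / (((v : ℂ) - g * I) * ((v : ℂ) - (-s)))) := by
    intro v
    have e0 : (0 : ℝ) < ((g : ℂ) * I).im := by simpa using hg
    have e1 := sub_ne e0 v
    have e2 := add_ne hs v
    have e3 : ((v : ℂ) ^ 2 + (g : ℂ) ^ 2) = ((v : ℂ) - g * I) * ((v : ℂ) + g * I) := by
      ring_nf
      rw [Complex.I_sq]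
      ring
    have e4 : (v : ℂ) + g * I ≠ 0 := by
      intro h
      have := congrArg Complex.im h
      simp at this
      exact hg.ne' this
    have e5 : (Real.pi : ℂ) ≠ 0 := by exact_mod_cast Real.pi_pos.ne'
    unfold cd
    push_cast
    rw [e3, sub_neg_eq_add]
    field_simp
  simp_rw [h1]
  rw [integral_const_mul, integral_two_poles (by simpa using hg) (by simpa using hs), mul_zero]

theorem integrable_cd_div {g : ℝ} (hg : 0 < g) {s : ℂ} (hs : s.im < 0) :
    Integrable fun v : ℝ => (cd g v : ℂ) / ((v : ℂ) + s) := by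
  have h1 : Integrable fun v : ℝ => (cd g v : ℂ) := (integrable_cd hg).ofReal
  have h2 := h1.bdd_mul (c := (-s.im)⁻¹) (f := fun v : ℝ => ((v : ℂ) + s)⁻¹) ?_ ?_
  · refine h2.congr (ae_of_all _ fun v => ?_)
    simp only
    rw [div_eq_mul_inv, mul_comm]
  · refine Continuous.aestronglyMeasurable ?_
    exact (by fun_prop : Continuous fun v : ℝ => (v : ℂ) + s).inv₀ fun v => add_ne hs v
  · refine ae_of_all _ fun v => ?_
    rw [norm_inv]
    have h3 : -s.im ≤ ‖(v : ℂ) + s‖ := by
      have := Complex.abs_im_le_norm ((v : ℂ) + s)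
      simp at this
      linarith [neg_le_abs s.im]
    have h4 : 0 < -s.im := by linarith
    gcongr

/-- the resolvent transform of the Cauchy law -/
theorem integral_cd_div {g : ℝ} (hg : 0 < g) {s : ℂ} (hs : s.im < 0) :
    ∫ v : ℝ, (cd g v : ℂ) / ((v : ℂ) + s) = 1 / (s - g * I) := by
  have h0 := integral_cd_mobius hg hs
  have h1 : ∀ v : ℝ, (cd g v : ℂ) * (((v : ℂ) + g * I) / ((v : ℂ) + s)) =
      (cd g v : ℂ) - (s - g * I) * ((cd g v : ℂ) / ((v : ℂ) + s)) := by
    intro v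
    have e2 := add_ne hs v
    field_simp
    ring
  simp_rw [h1] at h0
  have h5 := integral_sub (integrable_cd hg).ofReal
    ((integrable_cd_div hg hs).const_mul (s - g * I))
  rw [integral_const_mul, integral_ofReal, integral_cd hg] at h5
  have h0 := h5.symm.trans h0
  have h2 : s - g * I ≠ 0 := by
    intro h
    have := congrArg Complex.im h
    simp at this
    linarith
  rw [eq_div_iff h2]
  push_cast at h0
  linear_combination -h0

end Pool.Agent.Lib.MP_562b47_mp.SL
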